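import Pool.Agent.Helper79.SA.Goals

open MeasureTheory Filter Topology Set

noncomputable section

namespace SA.PkPCM

open Pool.Agent.Helper97.Ku SA

theorem nhd (n : ℕ) (x : Rl) : ∀ᶠ y in 𝓝 x, EqB n x y := by
  have h : ∀ᶠ y in 𝓝 x, ∀ i ∈ Finset.range n, x i = y i := by
    rw [Filter.eventually_all_finset]
    intro i _
    have h1 : ∀ᶠ b in 𝓝 (x i), x i = b :=
      Filter.mem_of_superset ((isOpen_discrete {x i}).mem_nhds rfl)
        fun b hb => (Set.mem_singleton_iff.1 hb).symm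
    exact (continuous_apply i).continuousAt.eventually h1
  filter_upwards [h] with y hy i hi
  exact hy i (Finset.mem_range.2 hi)

theorem base (O : Set Rl) (hO : IsOpen O) (x : Rl) (hx : x ∈ O) : ∃ n, ∀ y, EqB n x y → y ∈ O := by
  obtain ⟨I, u, hu, hsub⟩ := isOpen_pi_iff.1 hO x hx
  refine ⟨I.sup id + 1, fun y hy => hsub ?_⟩
  intro a ha
  have h1 : a ≤ I.sup id := Finset.le_sup (f := id) ha
  rw [← hy a (by omega)]
  exact (hu a ha).2

theorem base2 (O : Set (ℕ → Rl)) (hO : IsOpen O) (z : ℕ → Rl) (hz : z ∈ O) :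
    ∃ (F : Finset ℕ) (k : ℕ), ∀ y : ℕ → Rl, (∀ i ∈ F, EqB k (z i) (y i)) → y ∈ O := by
  obtain ⟨I, u, hu, hsub⟩ := isOpen_pi_iff.1 hO z hz
  have h1 : ∀ a, ∃ n, a ∈ I → ∀ y, EqB n (z a) y → y ∈ u a := by
    intro a
    by_cases ha : a ∈ I
    · obtain ⟨n, hn⟩ := base (u a) (hu a ha).1 (z a) (hu a ha).2
      exact ⟨n, fun _ => hn⟩
    · exact ⟨0, fun h => absurd h ha⟩
  choose n hn using h1
  refine ⟨I, I.sup n, fun y hy => hsub ?_⟩
  intro a ha
  refine hn a ha (y a) fun i hi => hy a ha i ?_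
  exact lt_of_lt_of_le hi (Finset.le_sup (f := n) ha)

/-- open maps -/
def Op (h : Mp) : Prop :=
  ∀ x m, ∃ n, ∀ y, EqB n (h.f x) y → ∃ x', EqB m x x' ∧ h.f x' = y

theorem op_one : Op 1 := fun _ m => ⟨m, fun y hy => ⟨y, hy, rfl⟩⟩

theorem op_mul (g h : Mp) (hg : Op g) (hh : Op h) : Op (g * h) := by
  intro x m
  obtain ⟨n1, h1⟩ := hh x m
  obtain ⟨n2, h2⟩ := hg (h.f x) n1
  refine ⟨n2, fun y hy => ?_⟩
  obtain ⟨w, hw1, hw2⟩ := h2 y hy
  obtain ⟨x', hx1, hx2⟩ := h1 w hw1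
  exact ⟨x', hx1, by rw [Mp.mul_f, hx2, hw2]⟩

theorem cn_dr (n : ℕ) (s z : Rl) (hz : EqB n s z) : (cn n s).f (dr n z) = z := by
  funext i
  by_cases hi : i < n
  · simp only [cn, hi, if_true]
    exact hz i hi
  · simp only [cn, hi, if_false, dr]
    congr 1
    omega

theorem dr_cn (n : ℕ) (s w : Rl) : dr n ((cn n s).f w) = w := by
  funext i
  simp [cn, dr]

theorem eqB_cn (n : ℕ) (s w : Rl) : EqB n s ((cn n s).f w) := by
  intro i hi
  simp [cn, hi]

theorem op_cn (n : ℕ) (s : Rl) : Op (cn n s) := by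
  intro x m
  refine ⟨n + m, fun y hy => ?_⟩
  have h1 : EqB n s y := by
    intro i hi
    rw [← hy i (by omega)]
    exact eqB_cn n s x i hi
  refine ⟨dr n y, ?_, cn_dr n s y h1⟩
  intro i hi
  have h2 := hy (i + n) (by omega)
  simp only [dr]
  rw [← h2]
  simp [cn]

theorem ins_in (n : ℕ) (s : Rl) (h : Mp) (x : Rl) (hx : EqB n s x) :
    (ins n s h).f x = (cn n s).f (h.f (dr n x)) := by
  simp only [ins, hx, if_true]

theorem ins_out (n : ℕ) (s : Rl) (h : Mp) (x : Rl) (hx : ¬ EqB n s x) :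
    (ins n s h).f x = x := by
  simp only [ins, hx, if_false]

theorem op_ins (n : ℕ) (s : Rl) (h : Mp) (hh : Op h) : Op (ins n s h) := by
  intro x m
  by_cases hx : EqB n s x
  · obtain ⟨n1, h1⟩ := hh (dr n x) m
    refine ⟨n + n1, fun y hy => ?_⟩
    rw [ins_in n s h x hx] at hy
    have h2 : EqB n s y := by
      intro i hi
      rw [← hy i (by omega)]
      exact eqB_cn n s _ i hi
    have h3 : EqB n1 (h.f (dr n x)) (dr n y) := by
      intro i hi
      have h4 := hy (i + n) (by omega)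
      simp only [dr] at h4 ⊢
      rw [← h4]
      simp [cn]
    obtain ⟨w, hw1, hw2⟩ := h1 _ h3
    refine ⟨(cn n s).f w, ?_, ?_⟩
    · intro i hi
      by_cases hin : i < n
      · rw [← eqB_cn n s w i hin, hx i hin]
      · simp only [cn, hin, if_false]
        rw [← hw1 (i - n) (by omega)]
        simp only [dr]
        congr 1
        omega
    · rw [ins_in n s h _ (eqB_cn n s w), dr_cn, hw2, cn_dr n s y h2]
  · refine ⟨max n m, fun y hy => ?_⟩
    rw [ins_out n s h x hx] at hy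
    have h2 : ¬ EqB n s y := by
      intro h3
      apply hx
      intro i hi
      rw [h3 i hi]
      exact (hy i (lt_of_lt_of_le hi (le_max_left _ _))).symm
    refine ⟨y, fun i hi => hy i (lt_of_lt_of_le hi (le_max_right _ _)), ins_out n s h y h2⟩

/-- the class of conditions used in the fusion -/
def Gc : Set (Cnd ℕ) := {g | {i | g.m i ≠ 1}.Finite ∧ ∀ i, Op (g.m i)}

theorem adm : Adm Gc where
  one := by
    refine ⟨?_, fun i => ?_⟩
    · refine Set.finite_empty.subset ?_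
      intro i hi
      exact absurd rfl hi
    · exact op_one
  mul := by
    rintro g h ⟨hg1, hg2⟩ ⟨hh1, hh2⟩
    refine ⟨(hg1.union hh1).subset fun i hi => ?_, fun i => ?_⟩
    · by_contra hc
      simp only [mem_union, mem_ofPred_eq, not_or, not_not] at hc
      exact hi (by rw [Cnd.mul_m, hc.1, hc.2, mul_one])
    · rw [Cnd.mul_m]
      exact op_mul _ _ (hg2 i) (hh2 i)
  box := by
    intro F n s
    refine ⟨F.finite_toSet.subset fun i hi => ?_, fun i => ?_⟩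
    · by_contra hc
      simp only [Finset.mem_coe] at hc
      exact hi (by simp [box, hc])
    · simp only [box]
      split_ifs
      · exact op_cn _ _
      · exact op_one
  am := by
    rintro F n s h ⟨hh1, hh2⟩
    refine ⟨(F.finite_toSet.union hh1).subset fun i hi => ?_, fun i => ?_⟩
    · by_contra hc
      simp only [Finset.mem_coe, mem_union, mem_ofPred_eq, not_or, not_not] at hc
      exact hi (by simp [am, hc.1, hc.2])
    · simp only [am]
      split_ifs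
      · exact op_ins _ _ _ (hh2 i)
      · exact hh2 i

theorem dens (hbox : G_BOX) (U : Set (ℕ → Rl)) (hU : IsOpen U) (hd : Dense U) (g : Cnd ℕ)
    (hg : g ∈ Gc) : ∃ h ∈ Gc, (g * h).rg ⊆ U := by
  obtain ⟨hg1, hg2⟩ := hg
  set F₀ : Finset ℕ := hg1.toFinset with hF₀
  have hF : ∀ i, i ∉ F₀ → g.m i = 1 := by
    intro i hi
    by_contra hc
    exact hi (hg1.mem_toFinset.2 hc)
  set x₀ : Rl := fun _ => false with hx₀
  have h1 : ∀ i, ∃ n, ∀ y, EqB n ((g.m i).f x₀) y → ∃ x', (g.m i).f x' = y := by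
    intro i
    obtain ⟨n, hn⟩ := hg2 i x₀ 0
    refine ⟨n, fun y hy => ?_⟩
    obtain ⟨x', _, hx'⟩ := hn y hy
    exact ⟨x', hx'⟩
  choose n hn using h1
  set z₀ : ℕ → Rl := g.ac (fun _ => x₀) with hz₀
  have hO : ∀ᶠ y in 𝓝 z₀, ∀ i ∈ F₀, EqB (n i) (z₀ i) (y i) := by
    rw [Filter.eventually_all_finset]
    intro i _
    exact (continuous_apply i).continuousAt.eventually (nhd (n i) (z₀ i))
  obtain ⟨z₁, hz₁, hz₁'⟩ := hd.inter_nhds_nonempty hO
  have hz₁'' : ∀ i ∈ F₀, EqB (n i) (z₀ i) (z₁ i) := hz₁'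
  have h2 : ∃ z' : ℕ → Rl, g.ac z' = z₁ := by
    have h3 : ∀ i, ∃ x', (g.m i).f x' = z₁ i := by
      intro i
      by_cases hi : i ∈ F₀
      · exact hn i _ (hz₁'' i hi)
      · rw [hF i hi]
        exact ⟨z₁ i, rfl⟩
    choose z' hz' using h3
    exact ⟨z', funext hz'⟩
  obtain ⟨z', hz'⟩ := h2
  obtain ⟨F, k, hFk⟩ := base2 U hU z₁ hz₁
  refine ⟨box F k z', adm.box F k z', ?_⟩
  rintro _ ⟨w, rfl⟩
  rw [Cnd.mul_ac]
  apply hFk
  intro i hi
  have h4 : (box F k z').ac w ∈ (box F k z').rg := ⟨w, rfl⟩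
  rw [(hbox ℕ F k).2.2.2.1 z'] at h4
  rw [← hz']
  exact (g.m i).lip k _ _ (h4 i hi)

theorem pcm (fus : G_FUS) (box : G_BOX) (pcs : G_PCS) : G_PCM := by
  intro A hA
  obtain ⟨S, hS1, hS2, hS3, hS4⟩ := mem_residual_iff.1 hA
  obtain ⟨U, hU⟩ := (hS3.union (Set.countable_singleton (Set.univ : Set (ℕ → Rl)))).exists_eq_range
    ⟨Set.univ, Or.inr rfl⟩
  have hUo : ∀ n, IsOpen (U n) ∧ Dense (U n) := by
    intro n
    have h1 : U n ∈ S ∪ {Set.univ} := by
      rw [hU]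
      exact ⟨n, rfl⟩
    rcases h1 with h1 | h1
    · exact ⟨hS1 _ h1, hS2 _ h1⟩
    · rw [Set.mem_singleton_iff.1 h1]
      exact ⟨isOpen_univ, dense_univ⟩
  obtain ⟨g, hg⟩ := fus ℕ Gc adm (fun n => {g | g.rg ⊆ U n})
    (fun n g hg => dens box (U n) (hUo n).1 (hUo n).2 g hg)
    (fun n g h hg => (Cnd.rg_mono (Cnd.mul_le g h)).trans hg)
  refine ⟨g, fun z hz => hS4 ?_⟩
  rw [Set.mem_sInter]
  intro t ht
  have h2 : t ∈ Set.range U := by
    rw [← hU]
    exact Or.inl ht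
  obtain ⟨n, rfl⟩ := h2
  obtain ⟨F, k, hFk⟩ := hg n
  rw [(pcs ℕ g F k).2.1, Set.mem_iUnion] at hz
  obtain ⟨s, hs⟩ := hz
  exact hFk s hs

end SA.PkPCM
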